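import Pool.Agent.Y731.FG.Stm

/-!
# Job 1609 (FG-B): zeros of irreducible polynomials at units
-/

set_option autoImplicit false
set_option linter.unusedSectionVars false
set_option linter.unusedVariables false

namespace Pool.Agent.Y960.FG

open FF Filter MvPolynomial Pool.Agent.W603.LV Pool.Agent.W603.PV Pool.Agent.W603.CZ
open Pool.Agent.Y731.FG
open scoped Classical

variable {I : Type} {𝒰 : Ultrafilter I} {k F : Type} [Field k] [IsAlgClosed k] [CharZero k]
  [Field F] {L : I → Type} [∀ i, Field (L i)] [∀ i, Algebra k (L i)] [∀ i, Algebra F (L i)]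
  [∀ i, IsFF k (L i)]

variable {Δ : Dt 𝒰 k F L}

lemma hu_nonneg {t : ℕ} (u : Fin t → UL 𝒰 L) : ∀ᶠ i in (𝒰 : Filter I), 0 ≤ Hu k u i :=
  Eventually.of_forall fun i => Hu_nonneg u i

lemma aeval_ne {t : ℕ} {u : Fin t → UL 𝒰 L} (hu : Δ.IsU u) {f : MvPolynomial (Fin t) Δ.E}
    (hf : f ≠ 0) : aeval u f ≠ 0 := fun h => hf (algebraicIndependent_iff.1 hu.2 f h)

lemma mon_ne {t : ℕ} {u : Fin t → UL 𝒰 L} (hu : ∀ j, u j ≠ 0) (s : Fin t →₀ ℕ) : mon u s ≠ 0 :=
  Finset.prod_ne_zero_iff.2 fun j _ => pow_ne_zero _ (hu j)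

lemma aeval_mon {t : ℕ} (u : Fin t → UL 𝒰 L) (s : Fin t →₀ ℕ) (a : Δ.E) :
    aeval u (monomial s a) = (a : UL 𝒰 L) * mon u s := by
  rw [aeval_monomial]
  congr 1
  unfold mon
  rw [Finsupp.prod_fintype _ _ (fun _ => pow_zero _)]

lemma oo_mon {t : ℕ} {u : Fin t → UL 𝒰 L} (hu : ∀ j, u j ≠ 0) (s : Fin t →₀ ℕ) :
    ∀ᶠ ω in EV 𝒰 k L, oo (mon u s) ω = ∑ j, (s j : ℤ) * oo (u j) ω := by
  have h1 := oo_prod (k := k) (𝒰 := 𝒰) Finset.univ (fun j => u j ^ s j)
    (fun j _ => pow_ne_zero _ (hu j))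
  have h2 : ∀ᶠ ω in EV 𝒰 k L, ∀ j, oo (u j ^ s j) ω = s j * oo (u j) ω :=
    eventually_all.2 fun j => oo_pow (u j) (s j)
  filter_upwards [h1, h2] with ω h1 h2
  unfold mon
  rw [h1]
  exact Finset.sum_congr rfl fun j _ => h2 j

lemma oo_mon_out {t : ℕ} {u : Fin t → UL 𝒰 L} (hu : ∀ j, u j ≠ 0) (s : Fin t →₀ ℕ) :
    ∀ᶠ ω in EV 𝒰 k L, ω ∉ Tu u → oo (mon u s) ω = 0 := by
  filter_upwards [oo_mon (k := k) hu s] with ω h hω
  rw [h]
  refine Finset.sum_eq_zero fun j _ => ?_
  have : oo (u j) ω = 0 := by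
    by_contra hj
    exact hω ⟨j, hj⟩
  rw [this, mul_zero]

/-- units of the polynomial ring -/
lemma bd_unit {t : ℕ} (u : Fin t → UL 𝒰 L) {f : MvPolynomial (Fin t) Δ.E} (hf : IsUnit f) :
    Bd 𝒰 Δ.χ (fun ω : Om k L => |oo (aeval u f) ω|) := by
  obtain ⟨e, _, rfl⟩ := isUnit_iff_eq_C_of_isReduced.1 hf
  simp only [aeval_C]
  exact Δ.bd_E e.2

lemma mem_E_of_der {z : UL 𝒰 L} (hz : uD Δ.D z = 0) : z ∈ Δ.E := by
  apply Δ.K0_le
  have h1 : um 𝒰 (fun i => Δ.D i (rep z i)) = 0 := by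
    rw [← uD_um, um_rep]
    exact hz
  have h2 := um_zero_iff.1 h1
  have h3 : ∀ᶠ i in (𝒰 : Filter I), ∃ c : k, rep z i = algebraMap k (L i) c := by
    filter_upwards [h2, Δ.D_ne] with i h4 h5
    exact const_of_der h5 h4
  refine ⟨fun i => if h : ∃ c : k, rep z i = algebraMap k (L i) c then h.choose else 0, ?_⟩
  conv_rhs => rw [← um_rep z]
  rw [um_eq]
  filter_upwards [h3] with i h
  rw [dif_pos h]
  exact h.choose_spec.symm

/-- the coefficients of the image under a special derivation -/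
lemma coeff_sd {t : ℕ}
    {δ : Derivation ℤ (MvPolynomial (Fin t) Δ.E) (MvPolynomial (Fin t) Δ.E)} (hδ : IsSd δ)
    (f : MvPolynomial (Fin t) Δ.E) (q : Fin t →₀ ℕ) :
    δ (monomial q (coeff q f)) = monomial q (coeff q (δ f)) := by
  choose b hb using hδ
  have h0 : ∀ v, b v 0 = 0 := by
    intro v
    have h1 := hb v 0
    rw [map_zero, map_zero] at h1
    exact (monomial_eq_zero.1 h1.symm)
  have h1 : δ f = ∑ v ∈ f.support, monomial v (b v (coeff v f)) := by
    conv_lhs => rw [f.as_sum]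
    rw [map_sum]
    exact Finset.sum_congr rfl fun v _ => hb v _
  rw [hb]
  congr 1
  rw [h1, coeff_sum]
  simp only [coeff_monomial]
  rw [Finset.sum_ite_eq' f.support q]
  split_ifs with hq
  · rfl
  · rw [notMem_support_iff.1 hq, h0]

lemma not_dvd {t : ℕ} {u : Fin t → UL 𝒰 L} (hu : Δ.IsU u)
    {δ : Derivation ℤ (MvPolynomial (Fin t) Δ.E) (MvPolynomial (Fin t) Δ.E)} (hδ : IsSd δ)
    (hδu : ∀ f, aeval u (δ f) = uD Δ.D (aeval u f)) {p : MvPolynomial (Fin t) Δ.E}
    {s s' : Fin t →₀ ℕ} (hs : s ∈ p.support) (hs' : s' ∈ p.support) (hss : s ≠ s') :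
    ¬ p ∣ δ p := by
  rintro ⟨c, hc⟩
  have hp0 : p ≠ 0 := by
    rintro rfl
    rw [support_zero] at hs
    exact absurd hs (Finset.notMem_empty _)
  have hsupp : (δ p).support ⊆ p.support := by
    intro q hq
    rw [mem_support_iff] at hq ⊢
    intro h0
    apply hq
    have h1 := coeff_sd hδ p q
    rw [h0, map_zero, map_zero] at h1
    exact monomial_eq_zero.1 h1.symm
  obtain ⟨e, he⟩ : ∃ e : Δ.E, c = C e := by
    by_cases hc0 : c = 0
    · exact ⟨0, by rw [hc0, C_0]⟩
    · have h1 := totalDegree_mul_of_isDomain hp0 hc0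
      rw [← hc] at h1
      have h2 : (δ p).totalDegree ≤ p.totalDegree := by
        unfold totalDegree
        exact Finset.sup_mono hsupp
      have h3 : c.totalDegree = 0 := by omega
      exact ⟨_, totalDegree_eq_zero_iff_eq_C.1 h3⟩
  have hcoef : ∀ q, coeff q (δ p) = e * coeff q p := by
    intro q
    rw [hc, he, mul_comm, coeff_C_mul]
  have hD : ∀ q, uD Δ.D (((coeff q p : Δ.E) : UL 𝒰 L) * mon u q) =
      (e : UL 𝒰 L) * (((coeff q p : Δ.E) : UL 𝒰 L) * mon u q) := by
    intro q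
    rw [← aeval_mon, ← hδu, coeff_sd hδ, hcoef, aeval_mon, aeval_mon]
    push_cast
    ring
  have hun : ∀ j, u j ≠ 0 := fun j => (hu.1 j).1
  have hne : ∀ q, q ∈ p.support → ((coeff q p : Δ.E) : UL 𝒰 L) ≠ 0 := by
    intro q hq h0
    rw [mem_support_iff] at hq
    apply hq
    exact_mod_cast h0
  set x : UL 𝒰 L := ((coeff s p : Δ.E) : UL 𝒰 L) * mon u s with hx
  set y : UL 𝒰 L := ((coeff s' p : Δ.E) : UL 𝒰 L) * mon u s' with hy
  have hy0 : y ≠ 0 := mul_ne_zero (hne _ hs') (mon_ne hun _)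
  have hz : uD Δ.D (x / y) = 0 := by
    rw [Derivation.leibniz_div, hD, hD]
    simp only [smul_eq_mul]
    ring
  have hzE := mem_E_of_der hz
  set zE : Δ.E := ⟨x / y, hzE⟩ with hzEd
  have h1 : aeval u (monomial s (coeff s p) - monomial s' (zE * coeff s' p)) = 0 := by
    rw [map_sub, aeval_mon, aeval_mon]
    push_cast
    rw [hzEd]
    simp only
    rw [mul_assoc, ← hy, ← hx, div_mul_cancel₀ _ hy0, sub_self]
  have h2 := algebraicIndependent_iff.1 hu.2 _ h1
  have h3 := congrArg (coeff s) h2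
  rw [coeff_sub, coeff_monomial, coeff_monomial, if_pos rfl, if_neg (Ne.symm hss), sub_zero,
    coeff_zero] at h3
  exact (mem_support_iff.1 hs) h3

/-- the order of a value of `uD` -/
lemma oo_uD (x : UL 𝒰 L) : ∀ᶠ ω in EV 𝒰 k L, oo x ω ≠ 0 →
    oo (uD Δ.D x) ω = oo x ω - 1 + vo ω.2 (Δ.D ω.1) := by
  rw [ev_iff]
  have h1 : uD Δ.D x = um 𝒰 (fun i => Δ.D i (rep x i)) := by
    rw [← uD_um, um_rep]
  filter_upwards [rep_um (𝒰 := 𝒰) (fun i => Δ.D i (rep x i)), Δ.D_ne] with i h2 h3 P h4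
  unfold oo at *
  rw [h1]
  simp only
  rw [h2]
  exact (ord_der P h3 h4).2

/-- **B** -/
theorem bS (Δ : Dt 𝒰 k F L) (hLOW : S_LOW Δ) (hHD : S_HD Δ) (hG : S_G Δ) : S_B Δ := by
  intro t u hu p hp
  have hun : ∀ j, u j ≠ 0 := fun j => (hu.1 j).1
  have hH := hu_nonneg (k := k) u
  have first : ∀ p : MvPolynomial (Fin t) Δ.E, Irreducible p →
      Ng 𝒰 Δ.χ (Hu k u) (fun ω : Om k L => if ω ∈ Tu u then 0 else oo (aeval u p) ω - 1) := by
    intro p hp
    by_cases hsing : ∃ s s', s ∈ p.support ∧ s' ∈ p.support ∧ s ≠ s'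
    · obtain ⟨s, s', hs, hs', hss⟩ := hsing
      obtain ⟨δ, hδ, hδu⟩ := hHD t u hu.1
      have hnd := not_dvd hu hδ hδu hs hs' hss
      have hδ0 : δ p ≠ 0 := by
        intro h0
        exact hnd (h0 ▸ dvd_zero _)
      have h1 := hG t u hu p (δ p) hp.ne_zero hδ0 (hp.isRelPrime_iff_not_dvd.2 hnd)
      refine ((h1.pos).add (Δ.vo_bd.ng hH)).mono ?_
      filter_upwards [oo_uD (Δ := Δ) (aeval u p)] with ω h2
      by_cases hω : ω ∈ Tu u
      · simp only [if_pos hω]
        have := abs_nonneg (vo ω.2 (Δ.D ω.1))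
        have := le_max_right (0 : ℤ) 0
        omega
      · simp only [if_neg hω]
        rw [hδu]
        have h3 := neg_abs_le (vo ω.2 (Δ.D ω.1))
        have h3' := abs_nonneg (vo ω.2 (Δ.D ω.1))
        by_cases h4 : oo (aeval u p) ω = 0
        · have := le_max_right (min (oo (aeval u p) ω) (oo (uD Δ.D (aeval u p)) ω)) 0
          omega
        · have h5 := h2 h4
          have h6 := le_max_left (min (oo (aeval u p) ω) (oo (uD Δ.D (aeval u p)) ω)) 0
          rcases min_choice (oo (aeval u p) ω) (oo (uD Δ.D (aeval u p)) ω) with h7 | h7 <;>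
          · rw [h7] at h6 ⊢
            omega
    · push Not at hsing
      have hp0 := hp.ne_zero
      obtain ⟨s, hs⟩ := Finset.nonempty_iff_ne_empty.2 (fun h => hp0 (support_eq_empty.1 h))
      have hps : p = monomial s (coeff s p) := by
        refine MvPolynomial.ext _ _ fun q => ?_
        rw [coeff_monomial]
        split_ifs with h
        · rw [h]
        · by_contra hq
          exact h (hsing s q hs (mem_support_iff.2 hq))
      have h1 := (Δ.bd_E (coeff s p).2).ng hH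
      refine h1.mono ?_
      have hc0 : ((coeff s p : Δ.E) : UL 𝒰 L) ≠ 0 := by
        intro h0
        exact (mem_support_iff.1 hs) (by exact_mod_cast h0)
      filter_upwards [oo_mul (k := k) hc0 (mon_ne hun s), oo_mon_out (k := k) hun s]
        with ω h2 h3
      by_cases hω : ω ∈ Tu u
      · simp only [if_pos hω]
        exact abs_nonneg _
      · simp only [if_neg hω]
        rw [hps, aeval_mon, coeff_monomial, if_pos rfl, h2, h3 hω]
        have := le_abs_self (oo ((coeff s p : Δ.E) : UL 𝒰 L) ω)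
        omega
  refine ⟨first p hp, ?_⟩
  intro f
  induction f using WfDvdMonoid.induction_on_irreducible with
  | zero => exact fun h => absurd rfl h
  | unit v hv =>
    intro _ _
    refine ((bd_unit u hv).ng hH).mono (Eventually.of_forall fun ω => ?_)
    split_ifs
    · exact abs_nonneg _
    · exact le_abs_self _
  | mul a r ha hr ih =>
    intro hra hpra
    have h1 := ih ha (fun h => hpra (Dvd.dvd.mul_left h _))
    have hpr : ¬ p ∣ r := fun h => hpra (Dvd.dvd.mul_right h _)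
    have h2 := hG t u hu p r hp.ne_zero hr.ne_zero (hp.isRelPrime_iff_not_dvd.2 hpr)
    have h3 := first r hr
    refine ((h1.add h2.pos).add h3.pos).mono ?_
    filter_upwards [oo_mul (k := k) (aeval_ne hu hr.ne_zero) (aeval_ne hu ha)] with ω h4
    by_cases hω : ω ∈ Tu u
    · simp only [hω, true_or, if_true]
      simp
    · by_cases h5 : oo (aeval u p) ω < 1
      · simp only [if_neg hω, h5, or_true, if_true]
        have := le_max_right (min (oo (aeval u p) ω) (oo (aeval u r) ω)) 0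
        have := le_max_right (oo (aeval u r) ω - 1) 0
        omega
      · simp only [hω, h5, or_false, if_false]
        rw [map_mul, h4]
        have h6 := le_max_right (min (oo (aeval u p) ω) (oo (aeval u r) ω)) 0
        have h7 := le_max_right (oo (aeval u r) ω - 1) 0
        have h6' := le_max_left (min (oo (aeval u p) ω) (oo (aeval u r) ω)) 0
        have h7' := le_max_left (oo (aeval u r) ω - 1) 0
        by_cases h8 : oo (aeval u r) ω ≤ 0
        · omega
        · have h9 : 1 ≤ min (oo (aeval u p) ω) (oo (aeval u r) ω) := by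
            rw [le_min_iff]
            omega
          omega

/-- **P0** -/
theorem p0 (Δ : Dt 𝒰 k F L) : S_P0 Δ := by
  intro t u hu f
  induction f using WfDvdMonoid.induction_on_irreducible with
  | zero => exact fun h => absurd rfl h
  | unit v hv =>
    intro _
    refine ⟨∅, fun p hp => absurd hp (Finset.notMem_empty _), _, bd_unit u hv,
      Eventually.of_forall fun ω _ _ => le_abs_self _⟩
  | mul a r ha hr ih =>
    intro _
    obtain ⟨Ps, hPs, e, he, h1⟩ := ih ha
    refine ⟨insert r Ps, ?_, e, he, ?_⟩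
    · intro p hp
      rcases Finset.mem_insert.1 hp with rfl | hp
      · exact ⟨hr, dvd_mul_right _ _⟩
      · exact ⟨(hPs p hp).1, Dvd.dvd.mul_left (hPs p hp).2 _⟩
    · filter_upwards [h1, oo_mul (k := k) (aeval_ne hu hr.ne_zero) (aeval_ne hu ha)]
        with ω h2 h3 hω h4
      rw [map_mul, h3]
      have h5 := h4 r (Finset.mem_insert_self _ _)
      have h6 := h2 hω fun p hp => h4 p (Finset.mem_insert_of_mem hp)
      omega

/-- **CP** -/
theorem cp (Δ : Dt 𝒰 k F L) (hB : S_B Δ) (hP0 : S_P0 Δ) : S_CP Δ := by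
  intro t u hu M y hy hcop
  obtain ⟨c0, hc0⟩ := hy
  have hH := hu_nonneg (k := k) u
  obtain ⟨Ps, hPs, e, he, h1⟩ := hP0 t u hu (y c0) hc0
  have h2 : ∀ p : MvPolynomial (Fin t) Δ.E, ∃ c, Irreducible p → ¬ p ∣ y c := by
    intro p
    by_cases hp : Irreducible p
    · obtain ⟨c, hc⟩ := hcop p hp
      exact ⟨c, fun _ => hc⟩
    · exact ⟨c0, fun h => absurd h hp⟩
  choose cc hcc using h2
  have h3 : ∀ p ∈ Ps, Ng 𝒰 Δ.χ (Hu k u) (fun ω : Om k L => max
      (if ω ∈ Tu u ∨ oo (aeval u p) ω < 1 then 0 else oo (aeval u (y (cc p))) ω) 0) := by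
    intro p hp
    have hpi := (hPs p hp).1
    have hnd := hcc p hpi
    have hne : y (cc p) ≠ 0 := by
      intro h0
      exact hnd (h0 ▸ dvd_zero _)
    exact ((hB t u hu p hpi).2 (y (cc p)) hne hnd).pos
  have h4 := Ng.sum Δ.nonneg hH Ps h3
  refine (((he.ng hH).pos).add h4).mono ?_
  have hmo : ∀ (ω : Om k L) (c : Fin M), aeval u (y c) ≠ 0 →
      mo (fun c => aeval u (y c)) ω ≤ oo (aeval u (y c)) ω := by
    intro ω c hc
    unfold mo
    exact ciInf_le (Set.finite_range _).bddBelow (⟨c, hc⟩ : {c // aeval u (y c) ≠ 0})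
  filter_upwards [h1] with ω h5
  by_cases hω : ω ∈ Tu u
  · simp only [if_pos hω]
    have := le_max_right (e ω) 0
    have : 0 ≤ ∑ p ∈ Ps, max
        (if ω ∈ Tu u ∨ oo (aeval u p) ω < 1 then 0 else oo (aeval u (y (cc p))) ω) 0 :=
      Finset.sum_nonneg fun p _ => le_max_right _ _
    linarith
  · simp only [if_neg hω]
    by_cases h6 : ∀ p ∈ Ps, oo (aeval u p) ω < 1
    · have h7 := h5 hω h6
      have h8 := hmo ω c0 (aeval_ne hu hc0)
      have := le_max_left (e ω) 0
      have : 0 ≤ ∑ p ∈ Ps, max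
          (if ω ∈ Tu u ∨ oo (aeval u p) ω < 1 then 0 else oo (aeval u (y (cc p))) ω) 0 :=
        Finset.sum_nonneg fun p _ => le_max_right _ _
      linarith
    · push Not at h6
      obtain ⟨p, hp, h7⟩ := h6
      have hpi := (hPs p hp).1
      have hnd := hcc p hpi
      have hne : y (cc p) ≠ 0 := by
        intro h0
        exact hnd (h0 ▸ dvd_zero _)
      have h8 := hmo ω (cc p) (aeval_ne hu hne)
      have h9 : max (if ω ∈ Tu u ∨ oo (aeval u p) ω < 1 then 0
          else oo (aeval u (y (cc p))) ω) 0 ≤ ∑ p ∈ Ps, max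
          (if ω ∈ Tu u ∨ oo (aeval u p) ω < 1 then 0 else oo (aeval u (y (cc p))) ω) 0 :=
        Finset.single_le_sum (f := fun p => max (if ω ∈ Tu u ∨ oo (aeval u p) ω < 1 then 0
          else oo (aeval u (y (cc p))) ω) 0) (fun p _ => le_max_right _ _) hp
      have h10 : ¬ (ω ∈ Tu u ∨ oo (aeval u p) ω < 1) := by
        rintro (h | h)
        · exact hω h
        · omega
      rw [if_neg h10] at h9
      have := le_max_right (e ω) 0
      have := le_max_left (oo (aeval u (y (cc p))) ω) 0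
      linarith

end Pool.Agent.Y960.FG
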