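import Pool.Agent.Y731.FG.Stm
import Pool.Agent.Y960.FG.Irr

/-!
# Job 1611 (FG-RP): representation of sparse points by coprime polynomials in units
-/

set_option autoImplicit false
set_option linter.unusedSectionVars false
set_option linter.unusedVariables false

namespace Pool.Agent.Y960.FG

open FF Filter MvPolynomial Pool.Agent.W603.LV Pool.Agent.W603.PV Pool.Agent.W603.CZ
open Pool.Agent.Y731.FG
open scoped Classical

variable {I : Type} {𝒰 : Ultrafilter I} {k F : Type} [Field k] [IsAlgClosed k] [CharZero k]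
  [Field F] {L : I → Type} [∀ i, Field (L i)] [∀ i, Algebra k (L i)] [∀ i, Algebra F (L i)]
  [∀ i, IsFF k (L i)]

variable {Δ : Dt 𝒰 k F L}

section lmon

/-- Laurent monomials -/
noncomputable def lmon {t : ℕ} (u : Fin t → UL 𝒰 L) (n : Fin t → ℤ) : UL 𝒰 L :=
  ∏ j, u j ^ n j

variable {t : ℕ} {u : Fin t → UL 𝒰 L}

omit [IsAlgClosed k] [CharZero k] [∀ i, IsFF k (L i)] [∀ i, Algebra F (L i)]

lemma lmon_ne (hu : ∀ j, u j ≠ 0) (n : Fin t → ℤ) : lmon u n ≠ 0 :=
  Finset.prod_ne_zero_iff.2 fun j _ => zpow_ne_zero _ (hu j)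

lemma lmon_zero : lmon u 0 = 1 := by
  unfold lmon
  exact Finset.prod_eq_one fun j _ => by rw [Pi.zero_apply, zpow_zero]

lemma lmon_add (hu : ∀ j, u j ≠ 0) (n m : Fin t → ℤ) :
    lmon u (n + m) = lmon u n * lmon u m := by
  unfold lmon
  rw [← Finset.prod_mul_distrib]
  exact Finset.prod_congr rfl fun j _ => by rw [Pi.add_apply, zpow_add₀ (hu j)]

lemma lmon_zpow (n : Fin t → ℤ) (m : ℤ) : lmon u n ^ m = lmon u (m • n) := by
  unfold lmon
  rw [← Finset.prod_zpow]
  refine Finset.prod_congr rfl fun j _ => ?_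
  rw [Pi.smul_apply, smul_eq_mul, mul_comm, zpow_mul]

lemma prod_lmon (hu : ∀ j, u j ≠ 0) {ι : Type} (S : Finset ι) (b : ι → Fin t → ℤ) :
    ∏ i ∈ S, lmon u (b i) = lmon u (∑ i ∈ S, b i) := by
  induction S using Finset.induction_on with
  | empty => rw [Finset.prod_empty, Finset.sum_empty, lmon_zero]
  | insert a S ha ih => rw [Finset.prod_insert ha, Finset.sum_insert ha, ih, lmon_add hu]

lemma lmon_lmon (hu : ∀ j, u j ≠ 0) {t' : ℕ} (b : Fin t' → Fin t → ℤ) (n : Fin t' → ℤ) :
    lmon (fun i => lmon u (b i)) n = lmon u (∑ i, n i • b i) := by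
  rw [← prod_lmon hu]
  unfold lmon
  refine Finset.prod_congr rfl fun i _ => ?_
  exact lmon_zpow (b i) (n i)

lemma mon_eq (s : Fin t →₀ ℕ) : mon u s = lmon u (fun j => (s j : ℤ)) := by
  unfold mon lmon
  exact Finset.prod_congr rfl fun j _ => by rw [zpow_natCast]

lemma exists_shift {α : Type} (S : Finset α) (e : α → Fin t → ℤ) :
    ∃ N : ℕ, ∀ a ∈ S, ∀ j, 0 ≤ e a j + N := by
  refine ⟨∑ a ∈ S, ∑ j, (e a j).natAbs, fun a ha j => ?_⟩
  have h1 : (e a j).natAbs ≤ ∑ a ∈ S, ∑ j, (e a j).natAbs :=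
    (Finset.single_le_sum (f := fun j => (e a j).natAbs) (fun _ _ => Nat.zero_le _)
      (Finset.mem_univ j)).trans
      (Finset.single_le_sum (f := fun a => ∑ j, (e a j).natAbs) (fun _ _ => Nat.zero_le _) ha)
  omega

/-- the shifted exponent -/
noncomputable def tau (N : ℕ) (e : Fin t → ℤ) : Fin t →₀ ℕ :=
  Finsupp.equivFunOnFinite.symm fun j => (e j + N).toNat

lemma tau_apply (N : ℕ) (e : Fin t → ℤ) (j : Fin t) : tau N e j = (e j + N).toNat := rfl

lemma mon_tau (hu : ∀ j, u j ≠ 0) {N : ℕ} {e : Fin t → ℤ} (h : ∀ j, 0 ≤ e j + N) :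
    mon u (tau N e) = lmon u e * lmon u (fun _ => (N : ℤ)) := by
  rw [mon_eq, ← lmon_add hu]
  congr 1
  funext j
  rw [tau_apply, Int.toNat_of_nonneg (h j)]
  rfl

end lmon

lemma oo_zpow (x : UL 𝒰 L) (n : ℤ) : ∀ᶠ ω in EV 𝒰 k L, oo (x ^ n) ω = n * oo x ω := by
  cases n with
  | ofNat n =>
    filter_upwards [oo_pow (k := k) x n] with ω h
    rw [Int.ofNat_eq_natCast, zpow_natCast, h]
  | negSucc n =>
    filter_upwards [oo_pow (k := k) x (n + 1), oo_inv (k := k) (x ^ (n + 1))] with ω h1 h2
    rw [zpow_negSucc, h2, h1, Int.negSucc_eq]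
    push_cast
    ring

lemma lu_lmon {t : ℕ} {u : Fin t → UL 𝒰 L} (hu : ∀ j, LU Δ (u j)) (n : Fin t → ℤ) :
    LU Δ (lmon u n) := by
  have hun : ∀ j, u j ≠ 0 := fun j => (hu j).1
  refine ⟨lmon_ne hun n, ?_⟩
  refine (Bd.sum Δ.nonneg Finset.univ (fun j _ => (hu j).2)).mono ?_
  filter_upwards [oo_prod (k := k) Finset.univ (fun j => u j ^ n j)
    (fun j _ => zpow_ne_zero _ (hun j)), eventually_all.2 fun j => oo_zpow (k := k) (u j) (n j)]
    with ω h1 h2
  have hnn : ∀ j, (0 : ℤ) ≤ if oo (u j) ω = 0 then 0 else 1 := by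
    intro j
    split_ifs <;> norm_num
  by_cases h : ∀ j, oo (u j) ω = 0
  · have h3 : oo (lmon u n) ω = 0 := by
      unfold lmon
      rw [h1]
      exact Finset.sum_eq_zero fun j _ => by rw [h2, h j, mul_zero]
    rw [if_pos h3]
    exact Finset.sum_nonneg fun j _ => hnn j
  · push Not at h
    obtain ⟨j, hj⟩ := h
    calc (if oo (lmon u n) ω = 0 then (0 : ℤ) else 1) ≤ 1 := by split_ifs <;> norm_num
      _ = if oo (u j) ω = 0 then 0 else 1 := by rw [if_neg hj]
      _ ≤ _ := Finset.single_le_sum (f := fun j => if oo (u j) ω = 0 then (0 : ℤ) else 1)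
          (fun j _ => hnn j) (Finset.mem_univ j)

/-- Laurent monomials with independent exponents are independent -/
lemma isU_lmon {t t' : ℕ} {u : Fin t → UL 𝒰 L} (hu : Δ.IsU u) (b : Fin t' → Fin t → ℤ)
    (hb : LinearIndependent ℤ b) : Δ.IsU (fun i => lmon u (b i)) := by
  refine ⟨fun i => lu_lmon hu.1 (b i), ?_⟩
  have hun : ∀ j, u j ≠ 0 := fun j => (hu.1 j).1
  rw [algebraicIndependent_iff]
  intro f hf
  let e : (Fin t' →₀ ℕ) → Fin t → ℤ := fun s => ∑ i, (s i : ℤ) • b i
  have he : Function.Injective e := by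
    intro s s' h
    rw [Fintype.linearIndependent_iff] at hb
    have h1 := hb (fun i => (s i : ℤ) - s' i) (by
      have h2 : ∑ i, (s i : ℤ) • b i = ∑ i, (s' i : ℤ) • b i := h
      rw [← sub_eq_zero, ← Finset.sum_sub_distrib] at h2
      rw [← h2]
      exact Finset.sum_congr rfl fun i _ => sub_smul _ _ _)
    ext i
    have := h1 i
    omega
  obtain ⟨N, hN⟩ := exists_shift f.support e
  have h1 : aeval u (∑ s ∈ f.support, monomial (tau N (e s)) (coeff s f)) = 0 := by
    rw [map_sum]
    have h2 : ∀ s ∈ f.support, aeval u (monomial (tau N (e s)) (coeff s f)) =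
        aeval (fun i => lmon u (b i)) (monomial s (coeff s f)) * lmon u (fun _ => (N : ℤ)) := by
      intro s hs
      rw [aeval_mon, aeval_mon, mon_tau hun (hN s hs), mon_eq, lmon_lmon hun, mul_assoc]
    rw [Finset.sum_congr rfl h2, ← Finset.sum_mul, ← map_sum, ← f.as_sum, hf, zero_mul]
  have h2 := algebraicIndependent_iff.1 hu.2 _ h1
  have hinj : ∀ s ∈ f.support, ∀ s' ∈ f.support, tau N (e s) = tau N (e s') → s = s' := by
    intro s hs s' hs' h
    apply he
    funext j
    have h3 := DFunLike.congr_fun h j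
    rw [tau_apply, tau_apply] at h3
    have h4 := hN s hs j
    have h5 := hN s' hs' j
    omega
  refine MvPolynomial.ext _ _ fun s => ?_
  rw [coeff_zero]
  by_contra hs
  have hs' := mem_support_iff.2 hs
  have h3 := congrArg (coeff (tau N (e s))) h2
  rw [coeff_sum, coeff_zero, Finset.sum_eq_single s] at h3
  · rw [coeff_monomial, if_pos rfl] at h3
    exact hs h3
  · intro s' hs1 hne
    rw [coeff_monomial, if_neg]
    intro h
    exact hne (hinj s' hs1 s hs' h)
  · intro h
    exact absurd hs' h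

/-- from Laurent polynomials to polynomials -/
lemma rep_of_laurent {M t : ℕ} {α : Type} (x : Fin M → UL 𝒰 L) (u : Fin t → UL 𝒰 L)
    (hu : ∀ j, u j ≠ 0) (lm' : UL 𝒰 L) (hlm' : lm' ≠ 0) (S : Finset α)
    (C : Fin M → α → Δ.E) (n : Fin M → α → Fin t → ℤ)
    (h : ∀ c, x c = lm' * ∑ a ∈ S, (C c a : UL 𝒰 L) * lmon u (n c a)) :
    ∃ (y : Fin M → MvPolynomial (Fin t) Δ.E) (lm : UL 𝒰 L), lm ≠ 0 ∧
      ∀ c, x c = lm * aeval u (y c) := by
  obtain ⟨N, hN⟩ := exists_shift ((Finset.univ : Finset (Fin M)) ×ˢ S)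
    (fun p : Fin M × α => n p.1 p.2)
  have hc := lmon_ne hu (fun _ => (N : ℤ))
  refine ⟨fun c => ∑ a ∈ S, monomial (tau N (n c a)) (C c a), lm' * (lmon u (fun _ => (N : ℤ)))⁻¹,
    mul_ne_zero hlm' (inv_ne_zero hc), fun c => ?_⟩
  rw [map_sum, h]
  have h1 : ∀ a ∈ S, aeval u (monomial (tau N (n c a)) (C c a)) =
      ((C c a : UL 𝒰 L) * lmon u (n c a)) * lmon u (fun _ => (N : ℤ)) := by
    intro a ha
    rw [aeval_mon, mon_tau hu (hN (c, a) (Finset.mk_mem_product (Finset.mem_univ c) ha)),
      mul_assoc]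
  rw [Finset.sum_congr rfl h1, ← Finset.sum_mul]
  field_simp

/-- **RP** -/
theorem rp (Δ : Dt 𝒰 k F L) (hMB : S_MB Δ) : S_RP Δ := by
  intro M m x w hxw hx0 hw
  obtain ⟨cx, hcx⟩ := hx0
  -- some representation
  let R : ℕ → Prop := fun t => ∃ (u : Fin t → UL 𝒰 L) (y : Fin M → MvPolynomial (Fin t) Δ.E)
    (lm : UL 𝒰 L), Δ.IsU u ∧ lm ≠ 0 ∧ ∀ c, x c = lm * aeval u (y c)
  have step1 : ∃ t, R t := by
    obtain ⟨j0, hj0⟩ : ∃ j, w cx j ≠ 0 := by
      by_contra hcon
      push Not at hcon
      apply hcx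
      rw [hxw]
      exact Finset.sum_eq_zero fun j _ => hcon j
    have h11 : LU Δ (1 : UL 𝒰 L) := by
      have := hw cx j0 cx j0 hj0 hj0
      rwa [div_self hj0] at this
    let z : Fin M × Fin m → UL 𝒰 L := fun p => if w p.1 p.2 = 0 then 1 else w p.1 p.2 / w cx j0
    obtain ⟨t, u, hu, hz⟩ := hMB (M * m) (fun l => z (finProdFinEquiv.symm l)) (by
      intro l
      simp only [z]
      split_ifs with h
      · exact h11
      · exact hw _ _ _ _ h hj0)
    have hz' : ∀ p : Fin M × Fin m, ∃ (a : Δ.E) (n : Fin t → ℤ), z p = (a : UL 𝒰 L) * lmon u n := by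
      intro p
      obtain ⟨a, ha, _, n, hn⟩ := hz (finProdFinEquiv p)
      refine ⟨⟨a, ha⟩, n, ?_⟩
      rw [Equiv.symm_apply_apply] at hn
      exact hn
    choose a n han using hz'
    obtain ⟨y, lm, hlm, hy⟩ := rep_of_laurent (Δ := Δ) x u (fun j => (hu.1 j).1) (w cx j0) hj0
      (Finset.univ : Finset (Fin m)) (fun c j => if w c j = 0 then 0 else a (c, j))
      (fun c j => n (c, j)) (by
        intro c
        rw [hxw, Finset.mul_sum]
        refine Finset.sum_congr rfl fun j _ => ?_
        by_cases h : w c j = 0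
        · rw [if_pos h, h]
          simp
        · rw [if_neg h, ← han]
          simp only [z]
          rw [if_neg h, mul_div_cancel₀ _ hj0])
    exact ⟨t, u, y, lm, hu, hlm, hy⟩
  -- minimal number of units
  let t := Nat.find step1
  have ht : R t := Nat.find_spec step1
  have htmin : ∀ t', t' < t → ¬ R t' := fun t' h => Nat.find_min step1 h
  -- minimal degree
  have step2 : ∃ d : ℕ, ∃ (u : Fin t → UL 𝒰 L) (y : Fin M → MvPolynomial (Fin t) Δ.E)
      (lm : UL 𝒰 L), (Δ.IsU u ∧ lm ≠ 0 ∧ ∀ c, x c = lm * aeval u (y c)) ∧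
        ∑ c, (y c).totalDegree = d := by
    obtain ⟨u, y, lm, h⟩ := ht
    exact ⟨_, u, y, lm, h, rfl⟩
  obtain ⟨u, y, lm, ⟨hu, hlm, hy⟩, hd⟩ := Nat.find_spec step2
  have hdmin := fun d' (h : d' < Nat.find step2) => Nat.find_min step2 h
  have hun : ∀ j, u j ≠ 0 := fun j => (hu.1 j).1
  have hycx : y cx ≠ 0 := by
    intro h0
    apply hcx
    rw [hy, h0, map_zero, mul_zero]
  refine ⟨t, u, y, lm, hu, hlm, hy, ?_, ?_⟩
  · intro p hp
    by_contra hcon
    push Not at hcon
    choose y' hy' using hcon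
    refine hdmin (∑ c, (y' c).totalDegree) ?_ ⟨u, y', lm * aeval u p, ⟨hu,
      mul_ne_zero hlm (aeval_ne hu hp.ne_zero), fun c => ?_⟩, rfl⟩
    · rw [← hd]
      have hp1 : 1 ≤ p.totalDegree := by
        by_contra h1
        have h2 : p.totalDegree = 0 := by omega
        rw [totalDegree_eq_zero_iff_eq_C] at h2
        apply hp.not_isUnit
        rw [h2]
        refine IsUnit.map C (isUnit_iff_ne_zero.2 ?_)
        intro h3
        apply hp.ne_zero
        rw [h2, h3, C_0]
      have hle : ∀ c, (y' c).totalDegree + (if y' c = 0 then 0 else 1) ≤ (y c).totalDegree := by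
        intro c
        by_cases h1 : y' c = 0
        · rw [if_pos h1, h1]
          simp
        · rw [if_neg h1, hy' c, totalDegree_mul_of_isDomain hp.ne_zero h1]
          omega
      refine Finset.sum_lt_sum (fun c _ => le_trans (Nat.le_add_right _ _) (hle c))
        ⟨cx, Finset.mem_univ _, ?_⟩
      have h1 := hle cx
      rw [if_neg] at h1
      · omega
      · intro h2
        apply hycx
        rw [hy' cx, h2, mul_zero]
    · rw [hy c, hy' c, map_mul]
      ring
  · intro j
    by_contra hcon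
    push Not at hcon
    set D : Set (Fin t → ℤ) := {v : Fin t → ℤ | ∃ c c' s s', s ∈ (y c).support ∧
      s' ∈ (y c').support ∧ v = fun l => (s l : ℤ) - s' l} with hD
    let Λ : Submodule ℤ (Fin t → ℤ) := AddSubgroup.toIntSubmodule (AddSubgroup.closure D)
    obtain ⟨t', ⟨b⟩⟩ := Submodule.nonempty_basis_of_pid (Pi.basisFun ℤ (Fin t)) Λ
    let b' : Fin t' → Fin t → ℤ := fun i => (b i : Fin t → ℤ)
    have hb' : LinearIndependent ℤ b' :=
      b.linearIndependent.map' Λ.subtype (Submodule.ker_subtype Λ)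
    have hlt : t' < t := by
      have h1 : LinearIndependent ℤ (fun o : Option (Fin t') =>
          (o.elim (Pi.single j 1) b' : Fin t → ℤ)) := by
        rw [Fintype.linearIndependent_iff]
        intro g hg
        rw [Fintype.sum_option] at hg
        simp only [Option.elim_none, Option.elim_some] at hg
        have h2 : g none • (Pi.single j 1 : Fin t → ℤ) ∈ AddSubgroup.closure D := by
          have h3 : g none • (Pi.single j 1 : Fin t → ℤ) = -∑ i, g (some i) • b' i :=
            eq_neg_of_add_eq_zero_left hg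
          rw [h3]
          apply neg_mem
          apply sum_mem
          intro i _
          exact Λ.smul_mem (g (some i)) (b i).2
        have h4 : g none = 0 := by
          by_contra h5
          have h6 : ((g none).natAbs : ℤ) • (Pi.single j 1 : Fin t → ℤ) ∈
              AddSubgroup.closure D := by
            rcases Int.natAbs_eq (g none) with h7 | h7
            · rwa [← h7]
            · have h8 : ((g none).natAbs : ℤ) • (Pi.single j 1 : Fin t → ℤ) =
                  -(g none • (Pi.single j 1 : Fin t → ℤ)) := by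
                rw [h7, neg_smul, neg_neg, Int.natAbs_neg, Int.natAbs_natCast]
              rw [h8]
              exact neg_mem h2
          refine hcon (g none).natAbs (Int.natAbs_pos.2 h5) ?_
          have h9 : (Pi.single j (((g none).natAbs : ℕ) : ℤ) : Fin t → ℤ) =
              ((g none).natAbs : ℤ) • (Pi.single j 1 : Fin t → ℤ) := by
            rw [← Pi.single_smul, smul_eq_mul, mul_one]
          rw [h9]
          exact h6
        rw [h4, zero_smul, zero_add] at hg
        rw [Fintype.linearIndependent_iff] at hb'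
        have h5 := hb' _ hg
        intro o
        cases o with
        | none => exact h4
        | some i => exact h5 i
      have h2 := h1.fintype_card_le_finrank
      rw [Fintype.card_option, Fintype.card_fin, Module.finrank_fin_fun] at h2
      exact h2
    apply htmin t' hlt
    -- the new units
    obtain ⟨s0, hs0⟩ := Finset.nonempty_iff_ne_empty.2 (fun h => hycx (support_eq_empty.1 h))
    have hU := isU_lmon hu b' hb'
    have hcoord : ∀ s : Fin t →₀ ℕ, ∃ n : Fin t' → ℤ, (∃ c, s ∈ (y c).support) →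
        mon u s = mon u s0 * lmon (fun i => lmon u (b' i)) n := by
      intro s
      by_cases hs : ∃ c, s ∈ (y c).support
      · obtain ⟨c, hc⟩ := hs
        have hmem : (fun l => (s l : ℤ) - s0 l) ∈ Λ :=
          AddSubgroup.subset_closure ⟨c, cx, s, s0, hc, hs0, rfl⟩
        refine ⟨fun i => b.repr ⟨_, hmem⟩ i, fun _ => ?_⟩
        have h1 := congrArg Subtype.val (b.sum_repr ⟨_, hmem⟩)
        rw [AddSubmonoidClass.coe_finsetSum] at h1
        simp only [SetLike.val_smul] at h1
        rw [lmon_lmon hun, mon_eq, mon_eq, ← lmon_add hun]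
        congr 1
        have h2 : (∑ i, (b.repr ⟨_, hmem⟩ i) • b' i : Fin t → ℤ) = fun l => (s l : ℤ) - s0 l := h1
        rw [h2]
        funext l
        rw [Pi.add_apply]
        ring
      · exact ⟨0, fun h => absurd h hs⟩
    choose n hn using hcoord
    obtain ⟨y1, lm1, hlm1, hy1⟩ := rep_of_laurent (Δ := Δ) x (fun i => lmon u (b' i))
      (fun i => lmon_ne hun _) (lm * mon u s0) (mul_ne_zero hlm (mon_ne hun s0))
      (Finset.univ.biUnion fun c => (y c).support) (fun c s => coeff s (y c))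
      (fun c s => n s) (by
        intro c
        rw [hy c]
        conv_lhs => rw [(y c).as_sum]
        rw [map_sum, mul_assoc]
        congr 1
        rw [Finset.mul_sum]
        have h1 : ∑ s ∈ (y c).support, aeval u (monomial s (coeff s (y c))) =
            ∑ s ∈ Finset.univ.biUnion (fun c => (y c).support),
              aeval u (monomial s (coeff s (y c))) := by
          apply Finset.sum_subset
          · exact Finset.subset_biUnion_of_mem (fun c => (y c).support) (Finset.mem_univ c)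
          · intro s _ hs
            rw [notMem_support_iff.1 hs, map_zero, map_zero]
        rw [h1]
        refine Finset.sum_congr rfl fun s hs => ?_
        obtain ⟨c', _, hc'⟩ := Finset.mem_biUnion.1 hs
        rw [aeval_mon, hn s ⟨c', hc'⟩]
        ring)
    exact ⟨_, y1, lm1, hU, hlm1, hy1⟩

end Pool.Agent.Y960.FG
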